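import Pool.Agent.MWGP.Stmts

/-! SGM: the system M1 gives distributive subvariety lattices (squad MWGP) -/

namespace Pool.Agent.MWGP.H82

open Pool.Agent.MWGP Pool.Agent.Helper14_MV

theorem sgm (h1 : DigStmt) (h2 : BrgStmt) : SgmStmt := by
  intro n β h
  have hd := h1 n β (h2 n β h)
  exact ⟨hd, distF_modF hd⟩

end Pool.Agent.MWGP.H82
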